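import Mathlib

set_option autoImplicit false

namespace Pool.Agent.Results.MP_b57ad3_co.Connected14

open Finset

/-- `(a, b)` is a diagonal of the convex polygon with vertices `1, …, N` (listed with `a < b`) -/
def IsDiag (N : ℕ) (d : ℕ × ℕ) : Prop :=
  1 ≤ d.1 ∧ d.1 + 2 ≤ d.2 ∧ d.2 ≤ N ∧ ¬ (d.1 = 1 ∧ d.2 = N)

/-- `(a, b)` is a side of the polygon (listed with `a < b`) -/
def IsSide (N : ℕ) (d : ℕ × ℕ) : Prop :=
  (1 ≤ d.1 ∧ d.2 = d.1 + 1 ∧ d.2 ≤ N) ∨ (d.1 = 1 ∧ d.2 = N)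

/-- two diagonals cross: their end points interleave -/
def Cross (d e : ℕ × ℕ) : Prop :=
  (d.1 < e.1 ∧ e.1 < d.2 ∧ d.2 < e.2) ∨ (e.1 < d.1 ∧ d.1 < e.2 ∧ e.2 < d.2)

/-- a triangulation: a maximal set of pairwise non-crossing diagonals -/
def IsTriangulation (N : ℕ) (T : Finset (ℕ × ℕ)) : Prop :=
  (∀ d ∈ T, IsDiag N d) ∧ (∀ d ∈ T, ∀ e ∈ T, ¬ Cross d e) ∧
    ∀ d, IsDiag N d → d ∉ T → ∃ e ∈ T, Cross d e

/-- an edge of the triangulation: a side of the polygon or a diagonal of `T` -/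
def IsEdge (N : ℕ) (T : Finset (ℕ × ℕ)) (d : ℕ × ℕ) : Prop := IsSide N d ∨ d ∈ T

/-- a triangulation each of whose triangles `a < b < c` has three different colours mod 3 -/
def Colorful (N : ℕ) (T : Finset (ℕ × ℕ)) : Prop :=
  IsTriangulation N T ∧ ∀ a b c : ℕ, a < b → b < c →
    IsEdge N T (a, b) → IsEdge N T (b, c) → IsEdge N T (a, c) →
      a % 3 ≠ b % 3 ∧ b % 3 ≠ c % 3 ∧ a % 3 ≠ c % 3

/-- `T'` arises from `T` by rotating the inner triangle of the hexagon `a < b < c < d < e < f` -/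
def TwistAt (N : ℕ) (T T' : Finset (ℕ × ℕ)) (a b c d e f : ℕ) : Prop :=
  a < b ∧ b < c ∧ c < d ∧ d < e ∧ e < f ∧
  IsEdge N T (a, b) ∧ IsEdge N T (b, c) ∧ IsEdge N T (c, d) ∧ IsEdge N T (d, e) ∧
  IsEdge N T (e, f) ∧ IsEdge N T (a, f) ∧
  (({(a, c), (c, e), (a, e)} ⊆ T ∧
      T' = (T \ {(a, c), (c, e), (a, e)}) ∪ {(b, d), (d, f), (b, f)}) ∨
   ({(b, d), (d, f), (b, f)} ⊆ T ∧
      T' = (T \ {(b, d), (d, f), (b, f)}) ∪ {(a, c), (c, e), (a, e)}))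

/-- the twist graph on the colourful triangulations of the `N`-gon -/
def H (N : ℕ) : SimpleGraph {T : Finset (ℕ × ℕ) // Colorful N T} :=
  SimpleGraph.fromRel fun T T' => ∃ a b c d e f, TwistAt N T.1 T'.1 a b c d e f

instance (N : ℕ) (d : ℕ × ℕ) : Decidable (IsDiag N d) := by unfold IsDiag; infer_instance
instance (N : ℕ) (d : ℕ × ℕ) : Decidable (IsSide N d) := by unfold IsSide; infer_instance
instance (d e : ℕ × ℕ) : Decidable (Cross d e) := by unfold Cross; infer_instance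
instance (N : ℕ) (T : Finset (ℕ × ℕ)) (d : ℕ × ℕ) : Decidable (IsEdge N T d) := by
  unfold IsEdge; infer_instance
instance (N : ℕ) (T T' : Finset (ℕ × ℕ)) (a b c d e f : ℕ) :
    Decidable (TwistAt N T T' a b c d e f) := by unfold TwistAt; infer_instance

def Rainbow (a b c : ℕ) : Prop := a % 3 ≠ b % 3 ∧ b % 3 ≠ c % 3 ∧ a % 3 ≠ c % 3

instance (a b c : ℕ) : Decidable (Rainbow a b c) := by unfold Rainbow; infer_instance

def C1 (T : Finset (ℕ × ℕ)) : Prop :=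
  (∀ d ∈ T, IsDiag 14 d) ∧ (∀ d ∈ T, ∀ e ∈ T, ¬ Cross d e)

def C0 (T : Finset (ℕ × ℕ)) (d : ℕ × ℕ) : Prop := ∃ e ∈ T, Cross d e

instance (T : Finset (ℕ × ℕ)) (d : ℕ × ℕ) : Decidable (C0 T d) := by unfold C0; infer_instance

def C2 (T : Finset (ℕ × ℕ)) : Prop :=
  ∀ b : ℕ, b < 15 → ∀ a : ℕ, a < b → IsDiag 14 (a, b) → (a, b) ∈ T ∨ C0 T (a, b)

def C3 (T : Finset (ℕ × ℕ)) (a c : ℕ) : Prop :=
  ∀ b < c, a < b → IsEdge 14 T (a, b) → IsEdge 14 T (b, c) → Rainbow a b c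

instance (T : Finset (ℕ × ℕ)) : Decidable (C1 T) := by unfold C1; infer_instance
instance (T : Finset (ℕ × ℕ)) : Decidable (C2 T) := by unfold C2; infer_instance
instance (T : Finset (ℕ × ℕ)) (a c : ℕ) : Decidable (C3 T a c) := by unfold C3; infer_instance

def ColB (T : Finset (ℕ × ℕ)) : Prop :=
  C1 T ∧ C2 T ∧ ∀ c < 15, ∀ a < c, IsEdge 14 T (a, c) → C3 T a c

instance (T : Finset (ℕ × ℕ)) : Decidable (ColB T) := by unfold ColB; infer_instance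

theorem colorful_of (T : Finset (ℕ × ℕ)) (h : ColB T) : Colorful 14 T := by
  obtain ⟨⟨h1, h2⟩, h3, h4⟩ := h
  refine ⟨⟨h1, h2, ?_⟩, ?_⟩
  · rintro ⟨a, b⟩ hd hn
    have := hd
    unfold IsDiag at this
    simp only at this
    exact (h3 b (by omega) a (by omega) hd).resolve_left hn
  · intro a b c hab hbc e1 e2 e3
    have : c < 15 := by
      rcases e3 with h | h
      · unfold IsSide at h; simp only at h; omega
      · have := h1 _ h; unfold IsDiag at this; simp only at this; omega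
    exact h4 c this a (by omega) e3 b hbc hab e1 e2

/-- all colourful triangulations of the sub-polygon `i, …, j` -/
def enum : ℕ → ℕ → ℕ → List (Finset (ℕ × ℕ))
  | 0, _, _ => []
  | f + 1, i, j =>
    if j ≤ i + 1 then [∅] else
      (List.range j).flatMap fun k =>
        if i < k ∧ i % 3 ≠ k % 3 ∧ k % 3 ≠ j % 3 ∧ i % 3 ≠ j % 3 then
          (enum f i k).flatMap fun A => (enum f k j).map fun B =>
            A ∪ B ∪ (if i + 1 < k then {(i, k)} else ∅) ∪ (if k + 1 < j then {(k, j)} else ∅)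
        else []

def inside (T : Finset (ℕ × ℕ)) (i j : ℕ) : Finset (ℕ × ℕ) :=
  T.filter fun d => i ≤ d.1 ∧ d.2 ≤ j ∧ d ≠ (i, j)

theorem apex {N : ℕ} {T : Finset (ℕ × ℕ)} (hT : IsTriangulation N T) {i j : ℕ}
    (he : IsEdge N T (i, j)) (hij : i + 1 < j) :
    ∃ k, i < k ∧ k < j ∧ IsEdge N T (i, k) ∧ IsEdge N T (k, j) := by
  obtain ⟨h1, h2, h3⟩ := hT
  have hb : 1 ≤ i ∧ j ≤ N := by
    rcases he with h | h
    · unfold IsSide at h; simp only at h; omega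
    · have := h1 _ h; unfold IsDiag at this; simp only at this; omega
  have hnc : ∀ x y, IsEdge N T (x, y) → ∀ e ∈ T, ¬ Cross (x, y) e := by
    intro x y h e hem
    rcases h with h | h
    · have := h1 _ hem
      unfold IsDiag at this
      unfold IsSide at h
      unfold Cross
      simp only at h ⊢
      omega
    · exact h2 _ h _ hem
  let P : ℕ → Prop := fun k => i < k ∧ IsEdge N T (i, k)
  have hex : P (i + 1) := ⟨by omega, Or.inl (Or.inl ⟨hb.1, rfl, by simp only; omega⟩)⟩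
  have hk := Nat.findGreatest_spec (P := P) (n := j - 1) (m := i + 1) (by omega) hex
  have hkle := Nat.findGreatest_le (P := P) (j - 1)
  have hmax := fun m h1 h2 => Nat.findGreatest_is_greatest (P := P) (n := j - 1) (k := m) h1 h2
  set k := Nat.findGreatest P (j - 1)
  refine ⟨k, hk.1, by omega, hk.2, ?_⟩
  by_cases hs : j = k + 1
  · exact Or.inl (Or.inl ⟨by have := hk.1; simp only; omega, hs, hb.2⟩)
  · by_contra hne
    have hd : IsDiag N (k, j) := by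
      have := hk.1
      unfold IsDiag; simp only; omega
    obtain ⟨⟨a, b⟩, hem, hc⟩ := h3 _ hd (fun h => hne (Or.inr h))
    have c1 := hnc _ _ he _ hem
    have c2 := hnc _ _ hk.2 _ hem
    have := hk.1
    unfold Cross at hc c1 c2
    simp only at hc c1 c2
    have hai : a = i ∧ k < b ∧ b < j := by omega
    exact hmax b hai.2.1 (by omega) ⟨by omega, Or.inr (hai.1 ▸ hem)⟩

theorem enum_complete {N : ℕ} {T : Finset (ℕ × ℕ)} (hT : Colorful N T) :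
    ∀ f i j, j ≤ i + f → i < j → IsEdge N T (i, j) → inside T i j ∈ enum f i j := by
  have h1 := hT.1.1
  have h2 := hT.1.2.1
  intro f
  induction f with
  | zero => intro i j h h'; omega
  | succ f ih =>
    intro i j hf hij he
    unfold enum
    split_ifs with hs
    · rw [List.mem_singleton, inside, filter_eq_empty_iff]
      rintro ⟨a, b⟩ hd
      have := h1 _ hd
      unfold IsDiag at this
      simp only at this ⊢
      omega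
    · obtain ⟨k, hik, hkj, e1, e2⟩ := apex hT.1 he (by omega)
      have hc := hT.2 i k j hik hkj e1 e2 he
      rw [List.mem_flatMap]
      refine ⟨k, List.mem_range.2 hkj, ?_⟩
      rw [if_pos ⟨hik, hc⟩, List.mem_flatMap]
      refine ⟨_, ih i k (by omega) hik e1, List.mem_map.2 ⟨_, ih k j (by omega) hkj e2, ?_⟩⟩
      have m1 : i + 1 < k → (i, k) ∈ T := by
        intro h
        rcases e1 with h' | h'
        · have : j ≤ N := by
            rcases he with h | h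
            · unfold IsSide at h; simp only at h; omega
            · have := h1 _ h; unfold IsDiag at this; simp only at this; omega
          unfold IsSide at h'; simp only at h'; omega
        · exact h'
      have m2 : k + 1 < j → (k, j) ∈ T := by
        intro h
        rcases e2 with h' | h'
        · have : 1 ≤ i := by
            rcases he with h | h
            · unfold IsSide at h; simp only at h; omega
            · have := h1 _ h; unfold IsDiag at this; simp only at this; omega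
          unfold IsSide at h'; simp only at h'; omega
        · exact h'
      ext ⟨a, b⟩
      simp only [inside, mem_union, mem_filter, ne_eq, Prod.mk.injEq]
      constructor
      · rintro (((h | h) | h) | h)
        · exact ⟨h.1, by omega⟩
        · exact ⟨h.1, by omega⟩
        · split_ifs at h with hh
          · obtain ⟨rfl, rfl⟩ := Prod.mk.inj (mem_singleton.1 h)
            exact ⟨m1 hh, by omega⟩
          · simp at h
        · split_ifs at h with hh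
          · obtain ⟨rfl, rfl⟩ := Prod.mk.inj (mem_singleton.1 h)
            exact ⟨m2 hh, by omega⟩
          · simp at h
      · rintro ⟨hm, h⟩
        have hd := h1 _ hm
        unfold IsDiag at hd
        simp only at hd
        have c1 : i + 1 < k → ¬ Cross (i, k) (a, b) := fun hh => h2 _ (m1 hh) _ hm
        have c2 : k + 1 < j → ¬ Cross (k, j) (a, b) := fun hh => h2 _ (m2 hh) _ hm
        unfold Cross at c1 c2
        simp only at c1 c2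
        by_cases x1 : a = i ∧ b = k
        · left; right
          rw [if_pos (by omega), x1.1, x1.2]; exact mem_singleton_self _
        by_cases x2 : a = k ∧ b = j
        · right
          rw [if_pos (by omega), x2.1, x2.2]; exact mem_singleton_self _
        left; left
        by_cases x3 : b ≤ k
        · left; exact ⟨hm, by omega⟩
        · right; exact ⟨hm, by omega⟩

def Ld : List (List (ℕ × ℕ)) := [
  [(1, 3), (3, 14), (4, 6), (4, 14), (6, 14), (7, 9), (7, 14), (9, 14), (10, 12), (10, 14), (12, 14)],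
  [(1, 3), (3, 14), (4, 6), (4, 14), (6, 14), (7, 9), (7, 14), (9, 11), (9, 13), (9, 14), (11, 13)],
  [(1, 3), (3, 14), (4, 6), (4, 14), (6, 8), (6, 10), (6, 14), (8, 10), (10, 12), (10, 14), (12, 14)],
  [(1, 3), (3, 5), (3, 7), (3, 14), (5, 7), (7, 9), (7, 14), (9, 14), (10, 12), (10, 14), (12, 14)],
  [(1, 3), (3, 14), (4, 6), (4, 14), (6, 8), (6, 13), (6, 14), (8, 13), (9, 11), (9, 13), (11, 13)],
  [(1, 3), (3, 5), (3, 7), (3, 14), (5, 7), (7, 9), (7, 14), (9, 11), (9, 13), (9, 14), (11, 13)],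
  [(1, 3), (3, 14), (4, 6), (4, 14), (6, 8), (6, 10), (6, 11), (6, 13), (6, 14), (8, 10), (11, 13)],
  [(1, 3), (3, 14), (4, 6), (4, 8), (4, 12), (4, 14), (6, 8), (8, 10), (8, 12), (10, 12), (12, 14)],
  [(1, 3), (3, 5), (3, 10), (3, 14), (5, 10), (6, 8), (6, 10), (8, 10), (10, 12), (10, 14), (12, 14)],
  [(1, 3), (3, 5), (3, 7), (3, 8), (3, 10), (3, 14), (5, 7), (8, 10), (10, 12), (10, 14), (12, 14)],
  [(1, 3), (1, 5), (1, 9), (3, 5), (5, 7), (5, 9), (7, 9), (9, 14), (10, 12), (10, 14), (12, 14)],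
  [(1, 3), (3, 14), (4, 6), (4, 14), (6, 8), (6, 13), (6, 14), (8, 10), (8, 12), (8, 13), (10, 12)],
  [(1, 3), (3, 5), (3, 13), (3, 14), (5, 13), (6, 8), (6, 13), (8, 13), (9, 11), (9, 13), (11, 13)],
  [(1, 3), (3, 5), (3, 7), (3, 8), (3, 13), (3, 14), (5, 7), (8, 13), (9, 11), (9, 13), (11, 13)],
  [(1, 3), (1, 5), (1, 9), (3, 5), (5, 7), (5, 9), (7, 9), (9, 11), (9, 13), (9, 14), (11, 13)],
  [(1, 3), (3, 14), (4, 6), (4, 14), (6, 11), (6, 13), (6, 14), (7, 9), (7, 11), (9, 11), (11, 13)],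
  [(1, 3), (3, 5), (3, 13), (3, 14), (5, 13), (6, 8), (6, 10), (6, 11), (6, 13), (8, 10), (11, 13)],
  [(1, 3), (3, 14), (4, 12), (4, 14), (5, 7), (5, 12), (7, 12), (8, 10), (8, 12), (10, 12), (12, 14)],
  [(1, 3), (3, 14), (4, 6), (4, 8), (4, 9), (4, 11), (4, 12), (4, 14), (6, 8), (9, 11), (12, 14)],
  [(1, 3), (3, 8), (3, 13), (3, 14), (4, 6), (4, 8), (6, 8), (8, 10), (8, 12), (8, 13), (10, 12)],
  [(1, 3), (3, 5), (3, 10), (3, 14), (5, 7), (5, 9), (5, 10), (7, 9), (10, 12), (10, 14), (12, 14)],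
  [(1, 3), (3, 5), (3, 10), (3, 11), (3, 13), (3, 14), (5, 10), (6, 8), (6, 10), (8, 10), (11, 13)],
  [(1, 3), (1, 5), (1, 12), (3, 5), (5, 10), (5, 12), (6, 8), (6, 10), (8, 10), (10, 12), (12, 14)],
  [(1, 3), (3, 8), (3, 10), (3, 14), (4, 6), (4, 8), (6, 8), (8, 10), (10, 12), (10, 14), (12, 14)],
  [(1, 3), (3, 5), (3, 7), (3, 8), (3, 10), (3, 11), (3, 13), (3, 14), (5, 7), (8, 10), (11, 13)],
  [(1, 3), (1, 8), (1, 12), (3, 5), (3, 7), (3, 8), (5, 7), (8, 10), (8, 12), (10, 12), (12, 14)],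
  [(1, 9), (2, 4), (2, 9), (4, 9), (5, 7), (5, 9), (7, 9), (9, 14), (10, 12), (10, 14), (12, 14)],
  [(1, 3), (1, 5), (1, 6), (1, 8), (1, 9), (3, 5), (6, 8), (9, 14), (10, 12), (10, 14), (12, 14)],
  [(1, 3), (3, 14), (4, 6), (4, 14), (6, 14), (7, 12), (7, 14), (8, 10), (8, 12), (10, 12), (12, 14)],
  [(1, 3), (3, 5), (3, 13), (3, 14), (5, 13), (6, 8), (6, 13), (8, 10), (8, 12), (8, 13), (10, 12)],
  [(1, 3), (3, 5), (3, 13), (3, 14), (5, 7), (5, 9), (5, 13), (7, 9), (9, 11), (9, 13), (11, 13)],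
  [(1, 3), (3, 8), (3, 13), (3, 14), (4, 6), (4, 8), (6, 8), (8, 13), (9, 11), (9, 13), (11, 13)],
  [(1, 3), (3, 5), (3, 7), (3, 8), (3, 13), (3, 14), (5, 7), (8, 10), (8, 12), (8, 13), (10, 12)],
  [(1, 9), (2, 4), (2, 9), (4, 9), (5, 7), (5, 9), (7, 9), (9, 11), (9, 13), (9, 14), (11, 13)],
  [(1, 3), (1, 5), (1, 6), (1, 8), (1, 9), (3, 5), (6, 8), (9, 11), (9, 13), (9, 14), (11, 13)],
  [(1, 3), (3, 14), (4, 6), (4, 14), (6, 14), (7, 9), (7, 11), (7, 12), (7, 14), (9, 11), (12, 14)],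
  [(1, 3), (3, 5), (3, 13), (3, 14), (5, 13), (6, 11), (6, 13), (7, 9), (7, 11), (9, 11), (11, 13)],
  [(1, 3), (3, 5), (3, 13), (3, 14), (5, 10), (5, 12), (5, 13), (6, 8), (6, 10), (8, 10), (10, 12)],
  [(1, 3), (3, 14), (4, 12), (4, 14), (5, 7), (5, 12), (7, 9), (7, 11), (7, 12), (9, 11), (12, 14)],
  [(1, 3), (3, 5), (3, 13), (3, 14), (5, 7), (5, 12), (5, 13), (7, 12), (8, 10), (8, 12), (10, 12)],
  [(1, 3), (3, 14), (4, 9), (4, 11), (4, 12), (4, 14), (5, 7), (5, 9), (7, 9), (9, 11), (12, 14)],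
  [(1, 3), (3, 11), (3, 13), (3, 14), (4, 6), (4, 8), (4, 9), (4, 11), (6, 8), (9, 11), (11, 13)],
  [(1, 3), (3, 14), (4, 9), (4, 14), (5, 7), (5, 9), (7, 9), (9, 14), (10, 12), (10, 14), (12, 14)],
  [(1, 3), (3, 5), (3, 10), (3, 11), (3, 13), (3, 14), (5, 7), (5, 9), (5, 10), (7, 9), (11, 13)],
  [(1, 3), (1, 5), (1, 12), (3, 5), (5, 7), (5, 9), (5, 10), (5, 12), (7, 9), (10, 12), (12, 14)],
  [(1, 3), (3, 11), (3, 13), (3, 14), (4, 6), (4, 11), (6, 8), (6, 10), (6, 11), (8, 10), (11, 13)],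
  [(1, 12), (2, 4), (2, 12), (4, 12), (5, 10), (5, 12), (6, 8), (6, 10), (8, 10), (10, 12), (12, 14)],
  [(1, 3), (1, 5), (1, 6), (1, 11), (1, 12), (3, 5), (6, 8), (6, 10), (6, 11), (8, 10), (12, 14)],
  [(1, 3), (3, 14), (4, 6), (4, 8), (4, 9), (4, 14), (6, 8), (9, 14), (10, 12), (10, 14), (12, 14)],
  [(1, 3), (3, 8), (3, 10), (3, 11), (3, 13), (3, 14), (4, 6), (4, 8), (6, 8), (8, 10), (11, 13)],
  [(1, 3), (1, 8), (1, 12), (3, 8), (4, 6), (4, 8), (6, 8), (8, 10), (8, 12), (10, 12), (12, 14)],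
  [(1, 3), (3, 5), (3, 7), (3, 11), (3, 13), (3, 14), (5, 7), (7, 9), (7, 11), (9, 11), (11, 13)],
  [(1, 12), (2, 7), (2, 12), (3, 5), (3, 7), (5, 7), (7, 12), (8, 10), (8, 12), (10, 12), (12, 14)],
  [(1, 3), (1, 8), (1, 9), (1, 11), (1, 12), (3, 5), (3, 7), (3, 8), (5, 7), (9, 11), (12, 14)],
  [(1, 9), (2, 4), (2, 9), (4, 6), (4, 8), (4, 9), (6, 8), (9, 14), (10, 12), (10, 14), (12, 14)],
  [(1, 6), (1, 8), (1, 9), (2, 4), (2, 6), (4, 6), (6, 8), (9, 14), (10, 12), (10, 14), (12, 14)],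
  [(1, 3), (3, 5), (3, 7), (3, 14), (5, 7), (7, 12), (7, 14), (8, 10), (8, 12), (10, 12), (12, 14)],
  [(1, 3), (3, 14), (4, 9), (4, 14), (5, 7), (5, 9), (7, 9), (9, 11), (9, 13), (9, 14), (11, 13)],
  [(1, 3), (3, 5), (3, 13), (3, 14), (5, 7), (5, 9), (5, 10), (5, 12), (5, 13), (7, 9), (10, 12)],
  [(1, 3), (3, 14), (4, 6), (4, 8), (4, 9), (4, 14), (6, 8), (9, 11), (9, 13), (9, 14), (11, 13)],
  [(1, 9), (2, 4), (2, 9), (4, 6), (4, 8), (4, 9), (6, 8), (9, 11), (9, 13), (9, 14), (11, 13)],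
  [(1, 6), (1, 8), (1, 9), (2, 4), (2, 6), (4, 6), (6, 8), (9, 11), (9, 13), (9, 14), (11, 13)],
  [(1, 3), (3, 5), (3, 7), (3, 14), (5, 7), (7, 9), (7, 11), (7, 12), (7, 14), (9, 11), (12, 14)],
  [(1, 3), (3, 5), (3, 13), (3, 14), (5, 7), (5, 12), (5, 13), (7, 9), (7, 11), (7, 12), (9, 11)],
  [(1, 3), (3, 14), (4, 12), (4, 14), (5, 10), (5, 12), (6, 8), (6, 10), (8, 10), (10, 12), (12, 14)],
  [(1, 3), (3, 14), (4, 6), (4, 11), (4, 12), (4, 14), (6, 11), (7, 9), (7, 11), (9, 11), (12, 14)],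
  [(1, 3), (3, 14), (4, 12), (4, 14), (5, 7), (5, 9), (5, 10), (5, 12), (7, 9), (10, 12), (12, 14)],
  [(1, 3), (3, 11), (3, 13), (3, 14), (4, 9), (4, 11), (5, 7), (5, 9), (7, 9), (9, 11), (11, 13)],
  [(1, 12), (2, 4), (2, 12), (4, 12), (5, 7), (5, 9), (5, 10), (5, 12), (7, 9), (10, 12), (12, 14)],
  [(1, 3), (1, 5), (1, 9), (1, 11), (1, 12), (3, 5), (5, 7), (5, 9), (7, 9), (9, 11), (12, 14)],
  [(1, 3), (3, 14), (4, 6), (4, 11), (4, 12), (4, 14), (6, 8), (6, 10), (6, 11), (8, 10), (12, 14)],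
  [(1, 3), (3, 11), (3, 13), (3, 14), (4, 6), (4, 11), (6, 11), (7, 9), (7, 11), (9, 11), (11, 13)],
  [(1, 12), (2, 4), (2, 12), (4, 6), (4, 11), (4, 12), (6, 8), (6, 10), (6, 11), (8, 10), (12, 14)],
  [(1, 6), (1, 11), (1, 12), (2, 4), (2, 6), (4, 6), (6, 8), (6, 10), (6, 11), (8, 10), (12, 14)],
  [(1, 3), (1, 5), (1, 6), (1, 11), (1, 12), (3, 5), (6, 11), (7, 9), (7, 11), (9, 11), (12, 14)],
  [(1, 12), (2, 4), (2, 12), (4, 6), (4, 8), (4, 12), (6, 8), (8, 10), (8, 12), (10, 12), (12, 14)],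
  [(1, 3), (1, 8), (1, 9), (1, 11), (1, 12), (3, 8), (4, 6), (4, 8), (6, 8), (9, 11), (12, 14)],
  [(1, 12), (2, 7), (2, 12), (3, 5), (3, 7), (5, 7), (7, 9), (7, 11), (7, 12), (9, 11), (12, 14)],
  [(1, 12), (2, 4), (2, 6), (2, 7), (2, 12), (4, 6), (7, 12), (8, 10), (8, 12), (10, 12), (12, 14)],
  [(1, 9), (1, 11), (1, 12), (2, 7), (2, 9), (3, 5), (3, 7), (5, 7), (7, 9), (9, 11), (12, 14)],
  [(1, 3), (1, 8), (1, 9), (3, 8), (4, 6), (4, 8), (6, 8), (9, 14), (10, 12), (10, 14), (12, 14)],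
  [(1, 9), (2, 4), (2, 6), (2, 7), (2, 9), (4, 6), (7, 9), (9, 14), (10, 12), (10, 14), (12, 14)],
  [(1, 3), (1, 5), (1, 12), (3, 5), (5, 7), (5, 12), (7, 12), (8, 10), (8, 12), (10, 12), (12, 14)],
  [(1, 3), (1, 8), (1, 9), (3, 8), (4, 6), (4, 8), (6, 8), (9, 11), (9, 13), (9, 14), (11, 13)],
  [(1, 9), (2, 4), (2, 6), (2, 7), (2, 9), (4, 6), (7, 9), (9, 11), (9, 13), (9, 14), (11, 13)],
  [(1, 3), (1, 5), (1, 12), (3, 5), (5, 7), (5, 12), (7, 9), (7, 11), (7, 12), (9, 11), (12, 14)],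
  [(1, 12), (2, 4), (2, 12), (4, 9), (4, 11), (4, 12), (5, 7), (5, 9), (7, 9), (9, 11), (12, 14)],
  [(1, 3), (1, 11), (1, 12), (3, 5), (3, 7), (3, 11), (5, 7), (7, 9), (7, 11), (9, 11), (12, 14)],
  [(1, 9), (1, 11), (1, 12), (2, 4), (2, 9), (4, 9), (5, 7), (5, 9), (7, 9), (9, 11), (12, 14)],
  [(1, 3), (1, 5), (1, 6), (1, 8), (1, 9), (1, 11), (1, 12), (3, 5), (6, 8), (9, 11), (12, 14)],
  [(1, 12), (2, 4), (2, 12), (4, 6), (4, 11), (4, 12), (6, 11), (7, 9), (7, 11), (9, 11), (12, 14)],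
  [(1, 3), (1, 11), (1, 12), (3, 11), (4, 6), (4, 11), (6, 8), (6, 10), (6, 11), (8, 10), (12, 14)],
  [(1, 12), (2, 4), (2, 6), (2, 10), (2, 12), (4, 6), (6, 8), (6, 10), (8, 10), (10, 12), (12, 14)],
  [(1, 6), (1, 11), (1, 12), (2, 4), (2, 6), (4, 6), (6, 11), (7, 9), (7, 11), (9, 11), (12, 14)],
  [(1, 12), (2, 4), (2, 12), (4, 12), (5, 7), (5, 12), (7, 12), (8, 10), (8, 12), (10, 12), (12, 14)],
  [(1, 12), (2, 4), (2, 12), (4, 6), (4, 8), (4, 9), (4, 11), (4, 12), (6, 8), (9, 11), (12, 14)],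
  [(1, 9), (1, 11), (1, 12), (2, 4), (2, 9), (4, 6), (4, 8), (4, 9), (6, 8), (9, 11), (12, 14)],
  [(1, 12), (2, 4), (2, 6), (2, 7), (2, 12), (4, 6), (7, 9), (7, 11), (7, 12), (9, 11), (12, 14)],
  [(1, 6), (1, 8), (1, 12), (2, 4), (2, 6), (4, 6), (6, 8), (8, 10), (8, 12), (10, 12), (12, 14)],
  [(1, 12), (2, 7), (2, 9), (2, 10), (2, 12), (3, 5), (3, 7), (5, 7), (7, 9), (10, 12), (12, 14)],
  [(1, 9), (1, 11), (1, 12), (2, 4), (2, 6), (2, 7), (2, 9), (4, 6), (7, 9), (9, 11), (12, 14)],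
  [(1, 3), (1, 8), (1, 9), (3, 5), (3, 7), (3, 8), (5, 7), (9, 14), (10, 12), (10, 14), (12, 14)],
  [(1, 9), (2, 7), (2, 9), (3, 5), (3, 7), (5, 7), (7, 9), (9, 14), (10, 12), (10, 14), (12, 14)],
  [(1, 3), (1, 5), (1, 6), (1, 8), (1, 12), (3, 5), (6, 8), (8, 10), (8, 12), (10, 12), (12, 14)],
  [(1, 3), (1, 8), (1, 9), (3, 5), (3, 7), (3, 8), (5, 7), (9, 11), (9, 13), (9, 14), (11, 13)],
  [(1, 9), (2, 7), (2, 9), (3, 5), (3, 7), (5, 7), (7, 9), (9, 11), (9, 13), (9, 14), (11, 13)],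
  [(1, 12), (2, 4), (2, 12), (4, 12), (5, 7), (5, 12), (7, 9), (7, 11), (7, 12), (9, 11), (12, 14)],
  [(1, 3), (1, 11), (1, 12), (3, 11), (4, 9), (4, 11), (5, 7), (5, 9), (7, 9), (9, 11), (12, 14)],
  [(1, 3), (1, 11), (1, 12), (3, 11), (4, 6), (4, 11), (6, 11), (7, 9), (7, 11), (9, 11), (12, 14)],
  [(1, 3), (1, 11), (1, 12), (3, 5), (3, 7), (3, 8), (3, 10), (3, 11), (5, 7), (8, 10), (12, 14)],
  [(1, 12), (2, 4), (2, 9), (2, 10), (2, 12), (4, 9), (5, 7), (5, 9), (7, 9), (10, 12), (12, 14)],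
  [(1, 6), (1, 8), (1, 9), (1, 11), (1, 12), (2, 4), (2, 6), (4, 6), (6, 8), (9, 11), (12, 14)],
  [(1, 3), (1, 11), (1, 12), (3, 5), (3, 10), (3, 11), (5, 10), (6, 8), (6, 10), (8, 10), (12, 14)],
  [(1, 12), (2, 10), (2, 12), (3, 5), (3, 10), (5, 10), (6, 8), (6, 10), (8, 10), (10, 12), (12, 14)],
  [(1, 12), (2, 4), (2, 6), (2, 7), (2, 9), (2, 10), (2, 12), (4, 6), (7, 9), (10, 12), (12, 14)],
  [(1, 3), (1, 11), (1, 12), (3, 11), (4, 6), (4, 8), (4, 9), (4, 11), (6, 8), (9, 11), (12, 14)],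
  [(1, 12), (2, 4), (2, 9), (2, 10), (2, 12), (4, 6), (4, 8), (4, 9), (6, 8), (10, 12), (12, 14)],
  [(1, 6), (2, 4), (2, 6), (4, 6), (6, 8), (6, 10), (6, 14), (8, 10), (10, 12), (10, 14), (12, 14)],
  [(1, 12), (2, 10), (2, 12), (3, 5), (3, 7), (3, 8), (3, 10), (5, 7), (8, 10), (10, 12), (12, 14)],
  [(1, 3), (1, 5), (1, 6), (3, 5), (6, 8), (6, 10), (6, 14), (8, 10), (10, 12), (10, 14), (12, 14)],
  [(1, 3), (1, 11), (1, 12), (3, 5), (3, 10), (3, 11), (5, 7), (5, 9), (5, 10), (7, 9), (12, 14)],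
  [(1, 3), (1, 11), (1, 12), (3, 8), (3, 10), (3, 11), (4, 6), (4, 8), (6, 8), (8, 10), (12, 14)],
  [(1, 12), (2, 10), (2, 12), (3, 5), (3, 10), (5, 7), (5, 9), (5, 10), (7, 9), (10, 12), (12, 14)],
  [(1, 12), (2, 10), (2, 12), (3, 8), (3, 10), (4, 6), (4, 8), (6, 8), (8, 10), (10, 12), (12, 14)],
  [(1, 6), (2, 4), (2, 6), (4, 6), (6, 14), (7, 9), (7, 14), (9, 14), (10, 12), (10, 14), (12, 14)],
  [(1, 6), (2, 4), (2, 6), (4, 6), (6, 8), (6, 10), (6, 11), (6, 13), (6, 14), (8, 10), (11, 13)],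
  [(1, 3), (1, 5), (1, 6), (3, 5), (6, 14), (7, 9), (7, 14), (9, 14), (10, 12), (10, 14), (12, 14)],
  [(1, 3), (1, 5), (1, 6), (3, 5), (6, 8), (6, 10), (6, 11), (6, 13), (6, 14), (8, 10), (11, 13)],
  [(1, 6), (2, 4), (2, 6), (4, 6), (6, 14), (7, 9), (7, 14), (9, 11), (9, 13), (9, 14), (11, 13)],
  [(1, 6), (2, 4), (2, 6), (4, 6), (6, 11), (6, 13), (6, 14), (7, 9), (7, 11), (9, 11), (11, 13)],
  [(1, 3), (1, 5), (1, 6), (3, 5), (6, 14), (7, 9), (7, 14), (9, 11), (9, 13), (9, 14), (11, 13)],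
  [(1, 3), (1, 5), (1, 6), (3, 5), (6, 11), (6, 13), (6, 14), (7, 9), (7, 11), (9, 11), (11, 13)],
  [(1, 6), (2, 4), (2, 6), (4, 6), (6, 8), (6, 13), (6, 14), (8, 13), (9, 11), (9, 13), (11, 13)],
  [(1, 6), (2, 4), (2, 6), (4, 6), (6, 14), (7, 9), (7, 11), (7, 12), (7, 14), (9, 11), (12, 14)],
  [(1, 3), (1, 5), (1, 6), (3, 5), (6, 8), (6, 13), (6, 14), (8, 13), (9, 11), (9, 13), (11, 13)],
  [(1, 3), (1, 5), (1, 6), (3, 5), (6, 14), (7, 9), (7, 11), (7, 12), (7, 14), (9, 11), (12, 14)],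
  [(1, 6), (2, 4), (2, 6), (4, 6), (6, 8), (6, 13), (6, 14), (8, 10), (8, 12), (8, 13), (10, 12)],
  [(1, 6), (2, 4), (2, 6), (4, 6), (6, 14), (7, 12), (7, 14), (8, 10), (8, 12), (10, 12), (12, 14)],
  [(1, 3), (1, 5), (1, 6), (3, 5), (6, 8), (6, 13), (6, 14), (8, 10), (8, 12), (8, 13), (10, 12)],
  [(1, 3), (1, 5), (1, 6), (3, 5), (6, 14), (7, 12), (7, 14), (8, 10), (8, 12), (10, 12), (12, 14)]]

def Pd : List (ℕ × ℕ × ℕ × ℕ × ℕ × ℕ × ℕ) := [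
  (0, 0, 0, 0, 0, 0, 0),
  (0, 9, 10, 11, 12, 13, 14),
  (0, 6, 7, 8, 9, 10, 14),
  (0, 3, 4, 5, 6, 7, 14),
  (1, 6, 7, 8, 9, 13, 14),
  (1, 3, 4, 5, 6, 7, 14),
  (2, 6, 10, 11, 12, 13, 14),
  (2, 4, 6, 8, 10, 12, 14),
  (2, 3, 4, 5, 6, 10, 14),
  (3, 3, 7, 8, 9, 10, 14),
  (3, 1, 3, 5, 7, 9, 14),
  (4, 8, 9, 10, 11, 12, 13),
  (4, 3, 4, 5, 6, 13, 14),
  (5, 3, 7, 8, 9, 13, 14),
  (5, 1, 3, 5, 7, 9, 14),
  (6, 6, 7, 8, 9, 10, 11),
  (6, 3, 4, 5, 6, 13, 14),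
  (7, 4, 5, 6, 7, 8, 12),
  (7, 4, 8, 9, 10, 11, 12),
  (7, 3, 4, 8, 12, 13, 14),
  (8, 5, 6, 7, 8, 9, 10),
  (8, 3, 10, 11, 12, 13, 14),
  (8, 1, 3, 5, 10, 12, 14),
  (9, 3, 4, 5, 6, 7, 8),
  (9, 3, 10, 11, 12, 13, 14),
  (9, 1, 3, 8, 10, 12, 14),
  (10, 1, 2, 3, 4, 5, 9),
  (10, 1, 5, 6, 7, 8, 9),
  (11, 6, 7, 8, 12, 13, 14),
  (11, 3, 4, 5, 6, 13, 14),
  (12, 5, 6, 7, 8, 9, 13),
  (13, 3, 4, 5, 6, 7, 8),
  (13, 8, 9, 10, 11, 12, 13),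
  (14, 1, 2, 3, 4, 5, 9),
  (14, 1, 5, 6, 7, 8, 9),
  (15, 6, 7, 11, 12, 13, 14),
  (15, 3, 4, 5, 6, 13, 14),
  (16, 5, 6, 10, 11, 12, 13),
  (17, 7, 8, 9, 10, 11, 12),
  (17, 3, 4, 5, 12, 13, 14),
  (18, 4, 5, 6, 7, 8, 9),
  (18, 3, 4, 11, 12, 13, 14),
  (20, 3, 4, 5, 9, 10, 14),
  (20, 3, 10, 11, 12, 13, 14),
  (20, 1, 3, 5, 10, 12, 14),
  (21, 3, 4, 5, 6, 10, 11),
  (22, 1, 2, 3, 4, 5, 12),
  (22, 1, 5, 6, 10, 11, 12),
  (23, 3, 4, 8, 9, 10, 14),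
  (23, 3, 10, 11, 12, 13, 14),
  (23, 1, 3, 8, 10, 12, 14),
  (24, 3, 7, 8, 9, 10, 11),
  (25, 1, 2, 3, 7, 8, 12),
  (25, 1, 8, 9, 10, 11, 12),
  (26, 4, 5, 6, 7, 8, 9),
  (27, 1, 2, 3, 4, 5, 6),
  (28, 3, 4, 5, 6, 7, 14),
  (30, 3, 4, 5, 9, 13, 14),
  (30, 5, 9, 10, 11, 12, 13),
  (31, 3, 4, 8, 9, 13, 14),
  (33, 4, 5, 6, 7, 8, 9),
  (34, 1, 2, 3, 4, 5, 6),
  (35, 3, 4, 5, 6, 7, 14),
  (36, 5, 6, 7, 11, 12, 13),
  (37, 3, 4, 5, 12, 13, 14),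
  (38, 4, 5, 6, 7, 11, 12),
  (40, 4, 5, 9, 10, 11, 12),
  (40, 3, 4, 11, 12, 13, 14),
  (44, 1, 2, 3, 4, 5, 12),
  (44, 1, 5, 9, 10, 11, 12),
  (45, 3, 4, 11, 12, 13, 14),
  (45, 6, 7, 8, 9, 10, 11),
  (46, 4, 5, 6, 10, 11, 12),
  (47, 1, 2, 3, 4, 5, 6),
  (47, 6, 7, 8, 9, 10, 11),
  (50, 1, 2, 3, 4, 8, 12),
  (50, 1, 8, 9, 10, 11, 12),
  (52, 7, 8, 9, 10, 11, 12),
  (52, 2, 3, 4, 5, 6, 7),
  (53, 1, 2, 3, 7, 8, 9),
  (54, 1, 2, 3, 4, 8, 9),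
  (55, 1, 2, 6, 7, 8, 9),
  (56, 1, 3, 5, 7, 12, 14),
  (60, 1, 2, 3, 4, 8, 9),
  (61, 1, 2, 6, 7, 8, 9),
  (62, 1, 3, 5, 7, 12, 14),
  (68, 4, 5, 9, 10, 11, 12),
  (69, 1, 3, 5, 7, 9, 11),
  (69, 1, 2, 3, 4, 5, 9),
  (69, 1, 5, 6, 7, 8, 9),
  (72, 6, 7, 8, 9, 10, 11),
  (72, 1, 2, 3, 4, 11, 12),
  (73, 1, 2, 6, 10, 11, 12),
  (73, 6, 7, 8, 9, 10, 11),
  (75, 4, 5, 6, 7, 8, 12),
  (75, 4, 8, 9, 10, 11, 12),
  (76, 1, 2, 3, 4, 8, 9),
  (77, 2, 3, 4, 5, 6, 7),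
  (78, 1, 2, 6, 7, 8, 12),
  (79, 1, 2, 9, 10, 11, 12),
  (79, 2, 3, 4, 5, 6, 7),
  (80, 3, 4, 5, 6, 7, 8),
  (81, 2, 3, 4, 5, 6, 7),
  (82, 1, 5, 6, 7, 8, 12),
  (83, 3, 4, 5, 6, 7, 8),
  (84, 2, 3, 4, 5, 6, 7),
  (85, 1, 2, 3, 4, 5, 12),
  (86, 1, 2, 3, 4, 11, 12),
  (87, 3, 4, 5, 6, 7, 11),
  (87, 3, 7, 8, 9, 10, 11),
  (88, 1, 2, 9, 10, 11, 12),
  (89, 1, 2, 3, 4, 5, 6),
  (91, 3, 4, 5, 6, 10, 11),
  (92, 2, 3, 4, 5, 6, 10),
  (92, 2, 6, 7, 8, 9, 10),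
  (95, 1, 2, 3, 4, 11, 12),
  (96, 1, 2, 9, 10, 11, 12),
  (98, 1, 6, 8, 10, 12, 14),
  (99, 2, 3, 7, 8, 9, 10),
  (103, 1, 6, 8, 10, 12, 14),
  (107, 3, 4, 5, 9, 10, 11),
  (109, 3, 4, 5, 6, 7, 8),
  (110, 2, 3, 4, 5, 9, 10),
  (116, 2, 3, 4, 8, 9, 10),
  (117, 6, 7, 8, 9, 10, 14),
  (117, 6, 10, 11, 12, 13, 14),
  (119, 6, 7, 8, 9, 10, 14),
  (119, 6, 10, 11, 12, 13, 14),
  (124, 9, 10, 11, 12, 13, 14),
  (125, 6, 7, 8, 9, 10, 11),
  (126, 9, 10, 11, 12, 13, 14),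
  (127, 6, 7, 8, 9, 10, 11),
  (128, 6, 7, 8, 9, 13, 14),
  (129, 6, 7, 11, 12, 13, 14),
  (130, 6, 7, 8, 9, 13, 14),
  (131, 6, 7, 11, 12, 13, 14),
  (132, 8, 9, 10, 11, 12, 13),
  (133, 7, 8, 9, 10, 11, 12),
  (134, 8, 9, 10, 11, 12, 13),
  (135, 7, 8, 9, 10, 11, 12)]

def L (i : ℕ) : Finset (ℕ × ℕ) := (Ld.getD i []).toFinset

theorem L_col : ∀ i < 140, ColB (L i) := by decide +kernel

theorem L_all : ∀ S ∈ enum 14 1 14, ∃ i < 140, S = L i := by decide +kernel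

theorem L_par : ∀ i < 140, i ≠ 0 → (Pd.getD i (0, 0, 0, 0, 0, 0, 0)).1 < i ∧
    TwistAt 14 (L i) (L (Pd.getD i (0, 0, 0, 0, 0, 0, 0)).1)
      (Pd.getD i (0, 0, 0, 0, 0, 0, 0)).2.1 (Pd.getD i (0, 0, 0, 0, 0, 0, 0)).2.2.1
      (Pd.getD i (0, 0, 0, 0, 0, 0, 0)).2.2.2.1 (Pd.getD i (0, 0, 0, 0, 0, 0, 0)).2.2.2.2.1
      (Pd.getD i (0, 0, 0, 0, 0, 0, 0)).2.2.2.2.2.1
      (Pd.getD i (0, 0, 0, 0, 0, 0, 0)).2.2.2.2.2.2 := by
  decide +kernel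

theorem reach : ∀ i (h : i < 140), (H 14).Reachable ⟨L i, colorful_of _ (L_col i h)⟩
    ⟨L 0, colorful_of _ (L_col 0 (by norm_num))⟩ := by
  intro i
  induction i using Nat.strong_induction_on with
  | _ i ih =>
    intro h
    by_cases h0 : i = 0
    · subst h0; rfl
    · obtain ⟨hp, ht⟩ := L_par i h h0
      refine SimpleGraph.Reachable.trans ?_ (ih _ hp (by omega))
      by_cases he : (⟨L i, colorful_of _ (L_col i h)⟩ : {T // Colorful 14 T}) =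
          ⟨L (Pd.getD i (0, 0, 0, 0, 0, 0, 0)).1, colorful_of _ (L_col _ (by omega))⟩
      · rw [he]
      · exact SimpleGraph.Adj.reachable
          ((SimpleGraph.fromRel_adj _ _ _).2 ⟨he, Or.inl ⟨_, _, _, _, _, _, ht⟩⟩)

theorem result : ∃ N : ℕ, 8 ≤ N ∧ N % 3 = 2 ∧ (H N).Connected := by
  refine ⟨14, by norm_num, by norm_num, ?_⟩
  have key : ∀ T : {T // Colorful 14 T}, (H 14).Reachable T
      ⟨L 0, colorful_of _ (L_col 0 (by norm_num))⟩ := by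
    rintro ⟨T, hT⟩
    have h1 := enum_complete hT 14 1 14 (by norm_num) (by norm_num) (Or.inl (Or.inr ⟨rfl, rfl⟩))
    have h2 : inside T 1 14 = T := by
      rw [inside, filter_eq_self]
      rintro ⟨a, b⟩ hd
      have := hT.1.1 _ hd
      unfold IsDiag at this
      simp only [ne_eq, Prod.mk.injEq] at this ⊢
      omega
    rw [h2] at h1
    obtain ⟨i, hi, rfl⟩ := L_all T h1
    exact reach i hi
  haveI : Nonempty {T // Colorful 14 T} := ⟨⟨L 0, colorful_of _ (L_col 0 (by norm_num))⟩⟩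
  exact ⟨fun S T => (key S).trans (key T).symm⟩

end Pool.Agent.Results.MP_b57ad3_co.Connected14
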